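import Pool.Agent.W541.DL.Stm

set_option autoImplicit false

namespace Pool.Agent.W32.DL.BWD

open MeasureTheory ProbabilityTheory Filter Topology
open Pool.Agent.W541.DL

/-- sigma-algebra of the lines from `j` on -/
@[reducible] def up {Ω : Type} (W : ℕ → ℝ → Ω → ℝ) (j : ℕ) : MeasurableSpace Ω :=
  ⨆ q : {q : ℕ × ℝ // j ≤ q.1}, MeasurableSpace.comap (W q.1.1 q.1.2) inferInstance

/-- sigma-algebra of the lines below `j` -/
@[reducible] def dn {Ω : Type} (W : ℕ → ℝ → Ω → ℝ) (j : ℕ) : MeasurableSpace Ω :=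
  ⨆ q : {q : ℕ × ℝ // q.1 < j}, MeasurableSpace.comap (W q.1.1 q.1.2) inferInstance

theorem meas_up {Ω : Type} (W : ℕ → ℝ → Ω → ℝ) (j k : ℕ) (t : ℝ) (h : j ≤ k) :
    Measurable[up W j] (W k t) := by
  rw [measurable_iff_comap_le]
  exact le_iSup (fun q : {q : ℕ × ℝ // j ≤ q.1} =>
    MeasurableSpace.comap (W q.1.1 q.1.2) inferInstance) ⟨(k, t), h⟩

theorem meas_dn {Ω : Type} (W : ℕ → ℝ → Ω → ℝ) (j k : ℕ) (t : ℝ) (h : k < j) :
    Measurable[dn W j] (W k t) := by
  rw [measurable_iff_comap_le]
  exact le_iSup (fun q : {q : ℕ × ℝ // q.1 < j} =>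
    MeasurableSpace.comap (W q.1.1 q.1.2) inferInstance) ⟨(k, t), h⟩

theorem meas_bar (hM : S_MEASK) {Ω : Type} (F : MeasurableSpace Ω) (W : ℕ → ℝ → Ω → ℝ)
    (hc : ∀ k ω, Continuous (fun t => W k t ω)) (n a m : ℕ) (s t : ℝ)
    (h : ∀ k < m, ∀ r : ℝ, Measurable[F] (W (a + k) r)) :
    Measurable[F] (fun ω => bar (env W ω) n a m s t) := by
  have h1 : Measurable[F] (fun ω => supK (env (fun k => W (a + k)) ω) m (paths m s t)) :=
    hM Ω F (fun k => W (a + k)) m (paths m s t) (fun k ω => hc _ ω)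
      (fun τ _ k hk => (h k hk _).sub (h k hk _))
  have h2 : Measurable[F] (fun ω => (n : ℝ) ^ ((1 : ℝ) / 6) *
      (supK (env (fun k => W (a + k)) ω) m (paths m s t) - Real.sqrt n * (t - s) -
        (m : ℝ) / Real.sqrt n)) :=
    ((h1.sub measurable_const).sub measurable_const).const_mul _
  exact h2

theorem main (hS : S_SUPER) (hD : S_DIAG) (hO : S_OTT) (hL : S_LINES) (hM : S_MEASK) : S_BWD := by
  intro Ω mΩ P W c n x γ l hW hT hn
  have hP : IsProbabilityMeasure P := hW.gauss.isProbabilityMeasure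
  classical
  set F : ℕ → Ω → ℝ := fun i ω => if ((n - 1 - i : ℕ) : ℝ) / n + γ ≤ 1 then
    bar (env W ω) n (n - 1 - i) (n - (n - 1 - i)) (x + ((n - 1 - i : ℕ) : ℝ) / n + γ) (1 + x)
    else l - 1 with hF
  set E : ℕ → Ω → ℝ := fun i ω =>
    bar (env W ω) n 0 (n - 1 - i) (x + γ) (x + γ + ((n - 1 - i : ℕ) : ℝ) / n) with hE
  set Full : Ω → ℝ := fun ω => bar (env W ω) n 0 n (x + γ) (x + γ + (1 - γ)) with hFull
  have hn0 : (0 : ℝ) < n := by exact_mod_cast hn
  have hsq : 0 < Real.sqrt n := Real.sqrt_pos.mpr hn0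
  have key := hO Ω P n c l (fun i => up W (n - 1 - i)) F E Full hP
    (by
      intro i i' hii
      refine iSup_le fun q => ?_
      exact le_iSup (fun q : {q : ℕ × ℝ // n - 1 - i' ≤ q.1} =>
        MeasurableSpace.comap (W q.1.1 q.1.2) inferInstance) ⟨q.1, by have := q.2; omega⟩)
    (by
      intro i
      exact iSup_le fun q => (hW.meas _ _).comap_le)
    (by
      intro i hi
      by_cases hc : ((n - 1 - i : ℕ) : ℝ) / n + γ ≤ 1
      · have e : F i = fun ω => bar (env W ω) n (n - 1 - i) (n - (n - 1 - i))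
            (x + ((n - 1 - i : ℕ) : ℝ) / n + γ) (1 + x) := by
          funext ω; simp only [hF]; rw [if_pos hc]
        rw [e]
        exact meas_bar hM _ W hW.cont n _ _ _ _ fun k _ r => meas_up W _ _ r (by omega)
      · have e : F i = fun _ => l - 1 := by
          funext ω; simp only [hF]; rw [if_neg hc]
        rw [e]
        exact measurable_const)
    (by
      intro i hi
      exact meas_bar hM mΩ W hW.cont n _ _ _ _ fun k _ r => hW.meas _ _)
    (by
      intro i hi
      have h1 := (hL Ω P W (n - 1 - i) hW).symm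
      refine indep_of_indep_of_le_right h1 ?_
      rw [← measurable_iff_comap_le]
      exact meas_bar hM _ W hW.cont n _ _ _ _ fun k hk r => meas_dn W _ _ r (by omega))
    (by
      intro i hi
      exact hD Ω P W c n 0 (n - 1 - i) (x + γ) hW hT hn (by omega))
    (by
      refine Eventually.of_forall fun ω i hi hl => ?_
      by_cases hc : ((n - 1 - i : ℕ) : ℝ) / n + γ ≤ 1
      · have e : F i ω = bar (env W ω) n (n - 1 - i) (n - (n - 1 - i))
            (x + ((n - 1 - i : ℕ) : ℝ) / n + γ) (1 + x) := by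
          simp only [hF]; rw [if_pos hc]
        rw [e]
        set j : ℕ := n - 1 - i with hj
        have hjn : j < n := by omega
        have hjr : (0 : ℝ) ≤ (j : ℝ) / n := by positivity
        have h1 := hS (env W ω) j (n - j) (x + γ) (x + γ + (j : ℝ) / n) (1 + x)
          (fun k => hW.cont k ω) (by linarith) (by linarith)
          (by intro h0; rw [h0]; simp) (by intro h0; omega)
        have e1 : j + (n - j) = n := by omega
        rw [e1] at h1
        simp only [hE, hFull]
        unfold bar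
        have e2 : x + (j : ℝ) / n + γ = x + γ + (j : ℝ) / n := by ring
        have e3 : x + γ + (1 - γ) = 1 + x := by ring
        rw [e2, e3]
        have e4 : (fun k => env W ω (0 + k)) = env W ω := by
          funext k; rw [zero_add]
        rw [e4, ← mul_add]
        apply mul_le_mul_of_nonneg_left _ (by positivity)
        have e5 : ((n - j : ℕ) : ℝ) = n - j := by
          rw [Nat.cast_sub hjn.le]
        rw [e5]
        have e6 : (j : ℝ) / Real.sqrt n + ((n : ℝ) - j) / Real.sqrt n = (n : ℝ) / Real.sqrt n := by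
          rw [← add_div]; congr 1; ring
        have e7 : Real.sqrt n * (1 + x - (x + γ + (j : ℝ) / n)) +
            Real.sqrt n * (x + γ + (j : ℝ) / n - (x + γ)) = Real.sqrt n * (1 + x - (x + γ)) := by ring
        linarith
      · have e : F i ω = l - 1 := by
          simp only [hF]; rw [if_neg hc]
        rw [e] at hl
        linarith)
  refine le_trans (measureReal_mono ?_) key
  rintro ω ⟨j, hj, hj1, hj2⟩
  refine ⟨n - 1 - j, by omega, ?_⟩
  have e0 : n - 1 - (n - 1 - j) = j := by omega
  simp only [hF]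
  rw [e0, if_pos hj1]
  exact hj2

end Pool.Agent.W32.DL.BWD
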